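import Mathlib
import Pool.Agent.Helper52.Hemi.Goals2

/-!
# The second moment of `S` (packet H7 of MP_7aba51_co)
-/

set_option autoImplicit false
set_option linter.unusedSectionVars false

open Classical

namespace Pool.Agent.Helper52.Hemi

variable {k F K : Type} [Field k] [Fintype k] [Field F] [Fintype F] [Field K] [Fintype K]
  [Algebra k F] [Algebra F K] [Algebra k K] [IsScalarTower k F K]

/-- The isotropic vectors. -/
noncomputable def isoF (k F K : Type) [Field k] [Fintype k] [Field F] [Fintype F] [Field K]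
    [Fintype K] [Algebra k F] [Algebra F K] [Algebra k K] [IsScalarTower k F K] : Finset K :=
  Finset.univ.filter (fun x : K => hh k F K x x = 0)

namespace Ctx

variable (c : Ctx k F K)

include c in
/-- Reindexing sums over the isotropic vectors by `x ↦ s x`. -/
theorem sum_iso_mul {M : Type} [AddCommMonoid M] {t : K} (ht : t ∈ CC k K) (g : K → M) :
    ∑ x ∈ isoF k F K, g (t * x) = ∑ x ∈ isoF k F K, g x := by
  apply Finset.sum_bij (fun s _ => t * s)
  · intro s hs
    rw [isoF, Finset.mem_filter] at *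
    refine ⟨Finset.mem_univ _, ?_⟩
    rw [c.hh_CC ht, hs.2]
  · intro s _ s' _ h
    exact mul_left_cancel₀ (c.CC_ne_zero ht) h
  · intro s hs
    rw [isoF, Finset.mem_filter] at hs
    refine ⟨t⁻¹ * s, ?_, mul_inv_cancel_left₀ (c.CC_ne_zero ht) s⟩
    rw [isoF, Finset.mem_filter]
    refine ⟨Finset.mem_univ _, ?_⟩
    rw [c.hh_CC (c.CC_inv ht), hs.2]
  · intro s _
    rfl

/-- `M(s)`. -/
noncomputable def MM (s : K) : ℤ := ∑ x ∈ isoF k F K, c.ph (hh k F K x 1) * c.ph (hh k F K x s)

theorem sum_SS_sq : ∑ x ∈ isoF k F K, (c.SS x) ^ 2 =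
    (CC k K).card * ∑ s ∈ CC k K, c.MM s := by
  have h1 : ∀ x : K, (c.SS x) ^ 2 = ∑ s ∈ CC k K, ∑ s' ∈ CC k K,
      c.ph (hh k F K x s) * c.ph (hh k F K x (s * s')) := by
    intro x
    rw [sq, SS, Finset.sum_mul]
    apply Finset.sum_congr rfl
    intro s hs
    rw [Finset.mul_sum]
    rw [c.sum_CC_mul hs (fun s' => c.ph (hh k F K x s) * c.ph (hh k F K x s'))]
  rw [Finset.sum_congr rfl (fun x _ => h1 x), Finset.sum_comm]
  rw [← nsmul_eq_mul, ← Finset.sum_const]
  apply Finset.sum_congr rfl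
  intro s hs
  rw [Finset.sum_comm]
  apply Finset.sum_congr rfl
  intro s' _
  rw [MM, ← c.sum_iso_mul hs]
  apply Finset.sum_congr rfl
  intro x _
  have e1 := c.hh_CC hs x 1
  rw [mul_one] at e1
  rw [e1, c.hh_CC hs]

theorem ph_neg (t : F) : c.ph (-t) = c.ph t := by
  have h := c.ph_k (u := -1) (neg_ne_zero.2 one_ne_zero) t
  rw [map_neg, map_one, neg_one_mul] at h
  exact h

/-- Parametrisation of the isotropic vectors not orthogonal to `1`. -/
theorem sum_iso_param (g : K → ℤ) :
    ∑ x ∈ isoF k F K, c.ph (hh k F K x 1) * g x =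
      ∑ x2 ∈ Finset.univ.erase (0 : F), ∑ z : F, ∑ r : k, c.ph x2 *
        g (c.vec (x2 * (z * cj k F z + algebraMap k F r * c.δ)) (x2 * z) x2) := by
  rw [← Finset.sum_filter_of_ne (p := fun x => hh k F K x 1 ≠ 0) (by
    intro x _ hx h0
    apply hx
    rw [h0, c.ph_zero, zero_mul])]
  simp only [← Finset.sum_product']
  symm
  apply Finset.sum_bij (fun (p : F × F × k) _ =>
    c.vec (p.1 * (p.2.1 * cj k F p.2.1 + algebraMap k F p.2.2 * c.δ)) (p.1 * p.2.1) p.1)
  · rintro ⟨x2, z, r⟩ hp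
    simp only [Finset.mem_product, Finset.mem_erase, Finset.mem_univ, and_true] at hp
    rw [Finset.mem_filter, isoF, Finset.mem_filter]
    refine ⟨⟨Finset.mem_univ _, ?_⟩, ?_⟩
    · rw [c.hh_vec]
      simp only [map_mul, map_add, c.cj_cj, cj_algebraMap, c.cj_δ]
      linear_combination (- x2 * z * cj k F x2 * cj k F z) * c.three_F
    · rw [c.hh_vec_one]
      exact neg_ne_zero.2 hp
  · rintro ⟨x2, z, r⟩ hp ⟨x2', z', r'⟩ hp' h
    simp only [Finset.mem_product, Finset.mem_erase, Finset.mem_univ, and_true] at hp hp'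
    obtain ⟨h1, h2, h3⟩ := c.vec_injective h
    simp only at h1 h2 h3
    subst h3
    have h4 := mul_left_cancel₀ hp h2
    subst h4
    have h5 := add_left_cancel (mul_left_cancel₀ hp h1)
    have h6 := (algebraMap k F).injective (mul_right_cancel₀ c.hδ0 h5)
    subst h6
    rfl
  · intro x hx
    rw [Finset.mem_filter, isoF, Finset.mem_filter] at hx
    obtain ⟨⟨_, hx1⟩, hx2⟩ := hx
    obtain ⟨X0, x1, x2, rfl⟩ := c.vec_surjective x
    rw [c.hh_vec_one] at hx2
    rw [c.hh_vec] at hx1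
    have hx2' : x2 ≠ 0 := fun h => hx2 (by rw [h, neg_zero])
    have hx2c : cj k F x2 ≠ 0 := (map_ne_zero _).2 hx2'
    have hw : cj k F (X0 / x2 - (x1 / x2) * cj k F (x1 / x2)) =
        -(X0 / x2 - (x1 / x2) * cj k F (x1 / x2)) := by
      rw [map_sub, map_mul, c.cj_cj, map_div₀, map_div₀]
      have e1 : X0 / x2 + cj k F X0 / cj k F x2 + (x1 / x2) * (cj k F x1 / cj k F x2) = 0 := by
        field_simp
        linear_combination - hx1
      linear_combination e1 - (x1 / x2) * (cj k F x1 / cj k F x2) * c.three_F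
    obtain ⟨r, hr⟩ := c.exists_δ hw
    refine ⟨(x2, x1 / x2, r), ?_, ?_⟩
    · simp only [Finset.mem_product, Finset.mem_erase, Finset.mem_univ, and_true]
      exact hx2'
    · simp only
      rw [← hr]
      congr 1
      · field_simp
        ring
      · field_simp
  · rintro ⟨x2, z, r⟩ hp
    simp only
    rw [c.hh_vec_one, c.ph_neg]

theorem MM_one : c.MM 1 = ((Fintype.card k : ℤ) ^ 2 - 1) * (Fintype.card k : ℤ) ^ 3 := by
  rw [MM, c.sum_iso_param (fun x => c.ph (hh k F K x 1))]
  have h1 : ∀ x2 ∈ Finset.univ.erase (0 : F), (∑ z : F, ∑ r : k, c.ph x2 *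
      c.ph (hh k F K (c.vec (x2 * (z * cj k F z + algebraMap k F r * c.δ)) (x2 * z) x2) 1)) =
      (Fintype.card k : ℤ) ^ 3 := by
    intro x2 hx2
    have h2 : ∀ (z : F) (r : k), c.ph x2 *
      c.ph (hh k F K (c.vec (x2 * (z * cj k F z + algebraMap k F r * c.δ)) (x2 * z) x2) 1) = 1 := by
      intro z r
      rw [c.hh_vec_one, c.ph_neg, ← sq, c.ph_sq (Finset.ne_of_mem_erase hx2)]
    simp only [h2, Finset.sum_const, Finset.card_univ, nsmul_eq_mul, mul_one, c.card_F]
    push_cast
    ring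
  rw [Finset.sum_congr rfl h1, Finset.sum_const, Finset.card_erase_of_mem (Finset.mem_univ _),
    Finset.card_univ, c.card_F, nsmul_eq_mul]
  have hle : 1 ≤ Fintype.card k ^ 2 := Nat.one_le_pow _ _ Fintype.card_pos
  push_cast [hle]
  ring

/-- The inner sum after the change of variables. -/
theorem sum_norm_line (A : F) : ∑ z : F, ∑ r : k,
    c.ph (A * (z * cj k F z + algebraMap k F r * c.δ)) =
      (Fintype.card k : ℤ) * ((Fintype.card k : ℤ) - 1) * c.ph A := by
  have h1 : ∑ y : k, c.ph ((1 + algebraMap k F y * c.δ) * A) = c.ph A := by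
    have h := c.sum_line A
    rw [c.ph_δ] at h
    linarith
  have h2 : ∀ z ∈ Finset.univ.erase (0 : F),
      (∑ r : k, c.ph (A * (z * cj k F z + algebraMap k F r * c.δ))) = c.ph A := by
    intro z hz
    have hz0 := Finset.ne_of_mem_erase hz
    obtain ⟨u, hu⟩ := c.exists_k (x := z * cj k F z) (by rw [map_mul, c.cj_cj, mul_comm])
    have hu0 : u ≠ 0 := by
      rintro rfl
      rw [map_zero] at hu
      rcases mul_eq_zero.1 hu.symm with h | h
      · exact hz0 h
      · exact hz0 ((map_eq_zero _).1 h)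
    rw [← hu, ← h1, ← Function.Bijective.sum_comp (mulLeft_bijective₀ u hu0)]
    apply Finset.sum_congr rfl
    intro y _
    rw [← c.ph_k hu0 ((1 + algebraMap k F y * c.δ) * A), map_mul]
    congr 1
    ring
  have h3 : (∑ r : k, c.ph (A * ((0 : F) * cj k F 0 + algebraMap k F r * c.δ))) =
      - ((Fintype.card k : ℤ) - 1) * c.ph A := by
    rw [← Finset.add_sum_erase Finset.univ _ (Finset.mem_univ (0 : k))]
    rw [map_zero, map_zero, zero_mul, zero_mul, add_zero, mul_zero, c.ph_zero, zero_add]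
    have h4 : ∀ r ∈ Finset.univ.erase (0 : k),
        c.ph (A * (0 + algebraMap k F r * c.δ)) = - c.ph A := by
      intro r hr
      have e : A * (0 + algebraMap k F r * c.δ) = algebraMap k F r * (c.δ * A) := by ring
      rw [e, c.ph_k (Finset.ne_of_mem_erase hr), c.ph_δ]
    rw [Finset.sum_congr rfl h4, Finset.sum_const, Finset.card_erase_of_mem (Finset.mem_univ _),
      Finset.card_univ, nsmul_eq_mul]
    have hle : 1 ≤ Fintype.card k := Fintype.card_pos
    push_cast [hle]
    ring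
  rw [← Finset.add_sum_erase Finset.univ _ (Finset.mem_univ (0 : F)), h3,
    Finset.sum_congr rfl h2, Finset.sum_const, Finset.card_erase_of_mem (Finset.mem_univ _),
    Finset.card_univ, c.card_F, nsmul_eq_mul]
  have hle : 1 ≤ Fintype.card k ^ 2 := Nat.one_le_pow _ _ Fintype.card_pos
  push_cast [hle]
  ring

/-- The change of variables. -/
theorem sum_inner {b : F} (hb : cj k F b = -b) (hb0 : b ≠ 0) (x2 : F) :
    ∑ z : F, ∑ r : k, c.ph (hh k F K (c.vec (x2 * (z * cj k F z + algebraMap k F r * c.δ))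
      (x2 * z) x2) (c.sp b)) =
    (Fintype.card k : ℤ) * ((Fintype.card k : ℤ) - 1) * c.ph ((1 - b) * x2) := by
  have hb1 : b - 1 ≠ 0 := by
    intro h
    have h1 : b = 1 := by linear_combination h
    rw [h1, map_one] at hb
    exact c.two_ne_zero_F (by linear_combination hb)
  have hb2 : b + 1 ≠ 0 := by
    intro h
    have h1 : b = -1 := by linear_combination h
    rw [h1, map_neg, map_one] at hb
    exact c.two_ne_zero_F (by linear_combination -hb)
  set a' : F := algebraMap k F c.a with ha'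
  have hcja : cj k F a' = a' := cj_algebraMap _
  have h0 : ∀ (z : F) (r : k), c.ph (hh k F K (c.vec (x2 * (z * cj k F z +
      algebraMap k F r * c.δ)) (x2 * z) x2) (c.sp b)) =
      c.ph (x2 * ((z * cj k F z + algebraMap k F r * c.δ) * (b ^ 3 - b ^ 2) +
        z * (a' * b) + (a' ^ 2 + b ^ 5 - b ^ 6))) := by
    intro z r
    have h := c.ph_hh_sp hb (x2 * (z * cj k F z + algebraMap k F r * c.δ)) (x2 * z) x2 1
    rw [one_mul, one_mul] at h
    rw [h]
    congr 1
    ring
  have hstep : ∀ w : F, (∑ r : k, c.ph (x2 * (((w + a' / (b * (b + 1))) *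
      cj k F (w + a' / (b * (b + 1))) +
      algebraMap k F r * c.δ) * (b ^ 3 - b ^ 2) +
        (w + a' / (b * (b + 1))) * (a' * b) + (a' ^ 2 + b ^ 5 - b ^ 6)))) =
      ∑ r : k, c.ph ((x2 * (b ^ 3 - b ^ 2)) * (w * cj k F w + algebraMap k F r * c.δ)) := by
    intro w
    have hκ : cj k F (a' / (b * (b + 1))) = a' / (b * (b - 1)) := by
      rw [map_div₀, map_mul, map_add, map_one, hcja, hb]
      congr 1
      ring
    have he : cj k F (-(a' / (b * (b - 1)) * (w + a' / (b * (b + 1))) -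
        a' / (b * (b + 1)) * (cj k F w + a' / (b * (b - 1)))) - b ^ 3 +
          a' ^ 2 / (b * ((b + 1) * (b - 1)))) =
        -(-(a' / (b * (b - 1)) * (w + a' / (b * (b + 1))) -
        a' / (b * (b + 1)) * (cj k F w + a' / (b * (b - 1)))) - b ^ 3 +
          a' ^ 2 / (b * ((b + 1) * (b - 1)))) := by
      have hκ' : cj k F (a' / (b * (b - 1))) = a' / (b * (b + 1)) := by
        rw [← hκ, c.cj_cj]
      have h3 : cj k F (a' ^ 2 / (b * ((b + 1) * (b - 1)))) =
          - (a' ^ 2 / (b * ((b + 1) * (b - 1)))) := by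
        rw [map_div₀, map_mul, map_mul, map_add, map_sub, map_one, map_pow, hcja, hb, ← div_neg]
        congr 1
        ring
      simp only [map_add, map_sub, map_neg, map_mul, map_pow, hκ, hκ', h3, hb, c.cj_cj]
      ring
    obtain ⟨v, hv⟩ := c.exists_δ he
    rw [← Function.Bijective.sum_comp (AddGroup.addLeft_bijective v)
      (fun r => c.ph ((x2 * (b ^ 3 - b ^ 2)) * (w * cj k F w + algebraMap k F r * c.δ)))]
    apply Finset.sum_congr rfl
    intro r _
    congr 1
    rw [map_add (cj k F), hκ, map_add (algebraMap k F), add_mul (algebraMap k F v), ← hv]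
    field_simp
    linear_combination (x2 * (a' * (w * b * (b + 1)) + a' ^ 2)) * c.three_F
  simp only [h0]
  rw [← Function.Bijective.sum_comp (AddGroup.addRight_bijective (a' / (b * (b + 1))))]
  rw [Finset.sum_congr rfl (fun w _ => hstep w), c.sum_norm_line]
  congr 1
  obtain ⟨u, hu0, hu⟩ := c.exists_k_b2 hb hb0
  rw [← c.ph_k (neg_ne_zero.2 hu0) ((1 - b) * x2), map_neg, hu]
  congr 1
  ring

theorem MM_sp {b : F} (hb : cj k F b = -b) (hb0 : b ≠ 0) :
    c.MM (c.sp b) = (Fintype.card k : ℤ) * ((Fintype.card k : ℤ) - 1) *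
      ∑ x2 ∈ Finset.univ.erase (0 : F), c.ph x2 * c.ph ((1 - b) * x2) := by
  rw [MM, c.sum_iso_param (fun x => c.ph (hh k F K x (c.sp b))), Finset.mul_sum]
  apply Finset.sum_congr rfl
  intro x2 _
  simp only [← Finset.mul_sum]
  rw [c.sum_inner hb hb0]
  ring

theorem sum_MM : ∑ s ∈ CC k K, c.MM s =
    ((Fintype.card k : ℤ) ^ 2 - 1) * (Fintype.card k : ℤ) ^ 3 := by
  rw [c.sum_CC, c.MM_one, add_eq_left]
  apply Finset.sum_eq_zero
  intro σ _
  have h1 : ∀ y ∈ Finset.univ.erase (0 : k),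
      c.MM ((c.shift σ).sp (algebraMap k F y * c.δ)) =
      (Fintype.card k : ℤ) * ((Fintype.card k : ℤ) - 1) *
      ∑ x2 ∈ Finset.univ.erase (0 : F), c.ph x2 * c.ph ((1 - algebraMap k F y * c.δ) * x2) := by
    intro y hy
    exact (c.shift σ).MM_sp ((c.shift σ).cj_yδ y) (c.yδ_ne (Finset.ne_of_mem_erase hy))
  rw [Finset.sum_congr rfl h1, ← Finset.mul_sum, Finset.sum_comm]
  simp only [← Finset.mul_sum]
  simp only [c.sum_half', mul_zero, Finset.sum_const_zero]

end Ctx

theorem goalMoment : GoalMoment := by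
  intro k F K _ _ _ _ _ _ _ _ _ _ c
  have h := c.sum_SS_sq
  rw [c.sum_MM, c.card_CC] at h
  rw [isoF] at h
  rw [h]
  have hle : Fintype.card k ≤ Fintype.card k ^ 2 := Nat.le_self_pow (by norm_num) _
  push_cast [hle]
  ring

end Pool.Agent.Helper52.Hemi
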